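import Mathlib

/-!
# Averages over finite orbits, weak convergence on products
-/

set_option autoImplicit false

namespace Pool.Agent.U980.EQ

open MeasureTheory Filter Topology ProbabilityTheory MulAction

theorem integral_uniformOn_image {Z X : Type} [MeasurableSpace X] [MeasurableSingletonClass X]
    {F : Z → X} (hF : Function.Injective F) (S : Finset Z) (f : X → ℝ) :
    ∫ x, f x ∂(uniformOn (F '' (S : Set Z))) = (∑ z ∈ S, f (F z)) / S.card := by
  classical
  have h1 : F '' (S : Set Z) = ((S.image F : Finset X) : Set X) := by simp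
  rw [h1, uniformOn, ProbabilityTheory.cond, integral_smul_measure, integral_finset]
  · rw [Measure.count_apply_finset, Finset.card_image_of_injective _ hF,
      Finset.sum_image (fun a _ b _ h => hF h)]
    simp [Measure.real, div_eq_inv_mul]
  · rw [← Set.biUnion_of_singleton ((S.image F : Finset X) : Set X)]
    refine (integrableOn_finite_biUnion (Finset.finite_toSet _)).2 fun x _ => ?_
    exact integrableOn_singleton (by simp) (by simp)

theorem avg_block {Z : Type} [DecidableEq Z] (O : Finset Z) (R : Z → Finset Z) (b : ℕ) (hb : 0 < b)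
    (hR : ∀ y ∈ O, R y ⊆ O) (hcard : ∀ y ∈ O, (R y).card = b)
    (hsymm : ∀ y ∈ O, ∀ z ∈ O, z ∈ R y → y ∈ R z) (h : Z → ℝ) :
    ∑ y ∈ O, (∑ z ∈ R y, h z) / b = ∑ y ∈ O, h y := by
  have hb' : (b : ℝ) ≠ 0 := by exact_mod_cast hb.ne'
  rw [← Finset.sum_div, div_eq_iff hb']
  have h1 : ∑ y ∈ O, ∑ z ∈ R y, h z = ∑ z ∈ O, ∑ y ∈ R z, h z := by
    refine Finset.sum_comm' fun y z => ⟨fun ⟨hy, hz⟩ => ?_, fun ⟨hy, hz⟩ => ?_⟩
    · exact ⟨hsymm y hy z (hR y hy hz) hz, hR y hy hz⟩
    · exact ⟨hR z hz hy, hsymm z hz y (hR z hz hy) hy⟩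
  rw [h1, Finset.sum_mul]
  refine Finset.sum_congr rfl fun z hz => ?_
  rw [Finset.sum_const, hcard z hz, nsmul_eq_mul, mul_comm]

/-- The average of `φ` over a finite set. -/
noncomputable def av {Z : Type} (O : Finset Z) (φ : Z → ℝ) : ℝ := (∑ y ∈ O, φ y) / O.card

/-- Averages over orbits are compatible with equivariant maps. -/
theorem av_equiv {H A B : Type} [Group H] [MulAction H A] [MulAction H B] [DecidableEq A] [DecidableEq B]
    {π : A → B} (hπ : ∀ (g : H) a, π (g • a) = g • π a) (a : A) {O : Finset A}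
    (hO : (O : Set A) = orbit H a) {O' : Finset B} (hO' : (O' : Set B) = orbit H (π a)) (φ : B → ℝ) :
    av O (fun y => φ (π y)) = av O' φ := by
  have hmem : ∀ y, y ∈ O ↔ y ∈ orbit H a := fun y => by rw [← hO, Finset.mem_coe]
  have hmem' : ∀ y, y ∈ O' ↔ y ∈ orbit H (π a) := fun y => by rw [← hO', Finset.mem_coe]
  set c := (O.filter fun y => π y = π a).card with hc
  have hmaps : ∀ y ∈ O, π y ∈ O' := by
    intro y hy
    rw [hmem] at hy
    obtain ⟨g, rfl⟩ := hy
    rw [hmem']
    exact ⟨g, (hπ g a).symm⟩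
  have hfib : ∀ z ∈ O', (O.filter fun y => π y = z).card = c := by
    intro z hz
    rw [hmem'] at hz
    obtain ⟨g, rfl⟩ := hz
    have e : (O.filter fun y => π y = g • π a) = (O.filter fun y => π y = π a).image (g • ·) := by
      ext y
      simp only [Finset.mem_filter, Finset.mem_image, hmem]
      constructor
      · rintro ⟨hy, hy'⟩
        refine ⟨g⁻¹ • y, ⟨?_, ?_⟩, smul_inv_smul g y⟩
        · exact (orbit_eq_iff.2 hy) ▸ mem_orbit y g⁻¹
        · rw [hπ, hy', inv_smul_smul]
      · rintro ⟨w, ⟨hw, hw'⟩, rfl⟩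
        refine ⟨?_, ?_⟩
        · exact (orbit_eq_iff.2 hw) ▸ mem_orbit w g
        · rw [hπ, hw']
    change (O.filter fun y => π y = g • π a).card = c
    rw [e, Finset.card_image_of_injective _ (MulAction.injective g)]
  have h1 : ∑ y ∈ O, φ (π y) = c * ∑ z ∈ O', φ z := by
    rw [← Finset.sum_fiberwise_of_maps_to hmaps, Finset.mul_sum]
    refine Finset.sum_congr rfl fun z hz => ?_
    rw [← hfib z hz]
    rw [Finset.sum_congr rfl (g := fun _ => φ z) fun y hy => by rw [(Finset.mem_filter.1 hy).2]]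
    rw [Finset.sum_const, nsmul_eq_mul]
  have h2 : (O.card : ℝ) = c * O'.card := by
    rw [Finset.card_eq_sum_card_fiberwise hmaps, Finset.sum_congr rfl hfib, Finset.sum_const,
      smul_eq_mul]
    push_cast
    ring
  have hc0 : (c : ℝ) ≠ 0 := by
    have : 0 < c := Finset.card_pos.2 ⟨a, Finset.mem_filter.2 ⟨(hmem a).2 (mem_orbit_self a), rfl⟩⟩
    exact_mod_cast this.ne'
  rw [av, av, h1, h2, mul_div_mul_left _ _ hc0]

/-- Weak convergence to a product measure can be tested on products of sets with boundaries of measure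
zero. -/
theorem tendsto_of_pi_sets {ι : Type} [Fintype ι] {X : ι → Type} [∀ j, TopologicalSpace (X j)]
    [∀ j, TopologicalSpace.MetrizableSpace (X j)] [∀ j, SecondCountableTopology (X j)]
    [∀ j, MeasurableSpace (X j)] [∀ j, BorelSpace (X j)] (μ : ∀ j, ProbabilityMeasure (X j))
    (ν : ℕ → ProbabilityMeasure (∀ j, X j))
    (h : ∀ s : ∀ j, Set (X j), (∀ j, MeasurableSet (s j)) → (∀ j, (μ j) (frontier (s j)) = 0) →
      Tendsto (fun i => ν i (Set.univ.pi s)) atTop (𝓝 (∏ j, μ j (s j)))) :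
    Tendsto ν atTop (𝓝 (ProbabilityMeasure.pi μ)) := by
  let S : Set (Set (Π i, X i)) := {t | ∃ (s : Π i, Set (X i)), t = Set.univ.pi s ∧
    (∀ i, MeasurableSet (s i)) ∧ (∀ i, μ i (frontier (s i)) = 0)}
  have : IsPiSystem S := by
    rintro - ⟨s, rfl, smeas, hs⟩ - ⟨s', rfl, s'meas, hs'⟩ -
    refine ⟨fun i ↦ s i ∩ s' i, Set.pi_inter_distrib.symm, fun i ↦ (smeas i).inter (s'meas i),
      fun i ↦ ?_⟩
    simp_rw [ProbabilityMeasure.null_iff_toMeasure_null] at hs hs' ⊢
    exact null_frontier_inter (hs i) (hs' i)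
  apply this.tendsto_probabilityMeasure_of_tendsto_of_mem
  · rintro - ⟨s, rfl, smeas, hs⟩
    exact MeasurableSet.univ_pi smeas
  · let : ∀ i, MetricSpace (X i) := fun i ↦ TopologicalSpace.metrizableSpaceMetric (X i)
    intro u u_open x xu
    obtain ⟨ε, εpos, hε⟩ : ∃ ε > 0, Metric.ball x ε ⊆ u := Metric.isOpen_iff.1 u_open x xu
    have A (i) : ∃ r ∈ Set.Ioo 0 ε, (μ i : Measure (X i)) (frontier (Metric.thickening r {x i})) = 0 :=
      exists_null_frontier_thickening _ _ εpos
    choose! r rpos hr using A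
    refine ⟨Set.univ.pi (fun i ↦ Metric.ball (x i) (r i)), ⟨fun i ↦ Metric.ball (x i) (r i), rfl,
      fun i ↦ measurableSet_ball, fun i ↦ by simpa using hr i⟩, ?_, ?_⟩
    · apply IsOpen.mem_nhds
      · exact isOpen_set_pi Set.finite_univ (by simp)
      · simpa using fun i ↦ (rpos i).1
    · calc Set.univ.pi fun i ↦ Metric.ball (x i) (r i)
      _ ⊆ Set.univ.pi fun i ↦ Metric.ball (x i) ε := by gcongr with i hi; exact (rpos i).2.le
      _ ⊆ u := by rwa [← ball_pi _ εpos]
  · rintro - ⟨s, rfl, smeas, hs⟩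
    rw [ProbabilityMeasure.pi_pi]
    exact h s smeas hs

end Pool.Agent.U980.EQ
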