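import Mathlib

/-!
# Group theory for the disjointness of ring class fields of different CM fields
-/

set_option autoImplicit false

namespace Pool.Agent.U980.EQ

open Subgroup

section comm

variable {A : Type} [CommGroup A] [Finite A]

theorem card_ker_pow (k : ℕ) :
    Nat.card (powMonoidHom (2 ^ k) : A →* A).ker ≤ Nat.card (powMonoidHom 2 : A →* A).ker ^ k := by
  induction k with
  | zero =>
    have : (powMonoidHom (2 ^ 0) : A →* A).ker = ⊥ := by
      ext a
      simp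
    rw [this]
    simp
  | succ k ih =>
    set T1 := (powMonoidHom 2 : A →* A).ker with hT1
    set Tk := (powMonoidHom (2 ^ k) : A →* A).ker with hTk
    set T := (powMonoidHom (2 ^ (k + 1)) : A →* A).ker with hT
    have hle : T1 ≤ T := by
      intro a ha
      rw [hT1, MonoidHom.mem_ker, powMonoidHom_apply] at ha
      rw [hT, MonoidHom.mem_ker, powMonoidHom_apply, pow_succ', pow_mul, ha, one_pow]
    have h1 : (⊥ : Subgroup A).relIndex T1 * T1.relIndex T = (⊥ : Subgroup A).relIndex T :=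
      relIndex_mul_relIndex _ _ _ bot_le hle
    rw [relIndex_bot_left, relIndex_bot_left] at h1
    have h2 : T1.relIndex T = Nat.card (T.map (powMonoidHom 2 : A →* A)) := relIndex_ker _ _
    have h3 : Nat.card (T.map (powMonoidHom 2 : A →* A)) ≤ Nat.card Tk := by
      refine Subgroup.card_le_of_le ?_
      rintro _ ⟨a, ha, rfl⟩
      have ha' : a ^ 2 ^ (k + 1) = 1 := ha
      rw [hTk, MonoidHom.mem_ker, powMonoidHom_apply, powMonoidHom_apply, ← pow_mul, ← pow_succ']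
      exact ha'
    rw [← h1, h2, pow_succ']
    exact Nat.mul_le_mul_left _ (h3.trans ih)

theorem card_le_of_pow (B W : Subgroup A) (k : ℕ) (h : ∀ b ∈ B, b ^ 2 ^ k ∈ W) :
    Nat.card B ≤ Nat.card (powMonoidHom 2 : A →* A).ker ^ k * Nat.card W := by
  set p : A →* A := powMonoidHom (2 ^ k) with hp
  have h1 : (⊥ : Subgroup A).relIndex (p.ker ⊓ B) * (p.ker ⊓ B).relIndex B = (⊥ : Subgroup A).relIndex B :=
    relIndex_mul_relIndex _ _ _ bot_le inf_le_right
  rw [relIndex_bot_left, relIndex_bot_left, inf_relIndex_right, relIndex_ker] at h1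
  rw [← h1]
  refine Nat.mul_le_mul ?_ ?_
  · exact (Subgroup.card_le_of_le inf_le_left).trans (card_ker_pow k)
  · refine Subgroup.card_le_of_le ?_
    rintro _ ⟨b, hb, rfl⟩
    exact h b hb

end comm

section

variable {G : Type} [Group G]

theorem exists_mem_not_mem {A B : Subgroup G} (hA : A.index = 2) (hB : B.index = 2) (hAB : A ≠ B) :
    ∃ g ∈ A, g ∉ B := by
  by_contra hcon
  push Not at hcon
  have hle : A ≤ B := hcon
  have h := relIndex_mul_index hle
  rw [hA, hB] at h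
  have h1 : A.relIndex B = 1 := by omega
  exact hAB (le_antisymm hle (relIndex_eq_one.1 h1))

/-- One doubling step. -/
theorem step {N M Gj Gk : Subgroup G} [N.Normal] (hN : ∀ σ ∈ Gj, ∀ τ ∈ Gj, σ * τ * σ⁻¹ * τ⁻¹ ∈ N)
    [M.Normal] (hM : ∀ g ∉ Gk, ∀ σ ∈ Gk, g * σ * g⁻¹ * σ ∈ M) {g : G} (hg : g ∈ Gj) (hg' : g ∉ Gk)
    {u : G} (hu : u ∈ Gj) (hu' : u ∈ Gk) :
    u * (g * u * g⁻¹) ∈ M ∧ (QuotientGroup.mk (u * (g * u * g⁻¹)) : G ⧸ N) = QuotientGroup.mk u ^ 2 := by
  constructor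
  · have h := hM g hg' u hu'
    have h2 := ‹M.Normal›.conj_mem _ h u
    have e : u * (g * u * g⁻¹ * u) * u⁻¹ = u * (g * u * g⁻¹) := by group
    rwa [e] at h2
  · have h := hN g hg u hu
    have h1 : (QuotientGroup.mk (g * u * g⁻¹) : G ⧸ N) = QuotientGroup.mk u := by
      rw [QuotientGroup.eq_iff_div_mem, div_eq_mul_inv]
      exact h
    rw [QuotientGroup.mk_mul, h1, sq]

/-- Iterated doubling: `2 ^ s`-th powers modulo `N` of elements of `U` are represented by elements of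
`U` which are in `M k` for all `k` in a set of `s` indices. -/
theorem iterate {ι : Type} [DecidableEq ι] {N Gj U : Subgroup G} [N.Normal] [U.Normal]
    (hN : ∀ σ ∈ Gj, ∀ τ ∈ Gj, σ * τ * σ⁻¹ * τ⁻¹ ∈ N) (hU : U ≤ Gj)
    (M Gk : ι → Subgroup G) (hMn : ∀ k, (M k).Normal)
    (hM : ∀ k, ∀ g ∉ Gk k, ∀ σ ∈ Gk k, g * σ * g⁻¹ * σ ∈ M k)
    (s : Finset ι) (hs : ∀ k ∈ s, U ≤ Gk k ∧ ∃ g ∈ Gj, g ∉ Gk k) (u : G) (hu : u ∈ U) :
    ∃ v ∈ U, (∀ k ∈ s, v ∈ M k) ∧
      (QuotientGroup.mk v : G ⧸ N) = QuotientGroup.mk u ^ 2 ^ s.card := by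
  induction s using Finset.induction_on with
  | empty => exact ⟨u, hu, by simp, by simp⟩
  | insert k s hk ih =>
    obtain ⟨v, hv, hvM, hvN⟩ := ih fun l hl => hs l (Finset.mem_insert_of_mem hl)
    obtain ⟨hUk, g, hg, hg'⟩ := hs k (Finset.mem_insert_self k s)
    haveI := hMn k
    obtain ⟨h1, h2⟩ := step (N := N) (M := M k) hN (hM k) hg hg' (hU hv) (hUk hv)
    refine ⟨v * (g * v * g⁻¹), U.mul_mem hv (‹U.Normal›.conj_mem v hv g), ?_, ?_⟩
    · intro l hl
      rcases Finset.mem_insert.1 hl with rfl | hl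
      · exact h1
      · exact (M l).mul_mem (hvM l hl) ((hMn l).conj_mem v (hvM l hl) g)
    · rw [h2, hvN, Finset.card_insert_of_notMem hk, ← pow_mul, ← pow_succ]

/-- The number of elements of order at most `2` in `Gj / N`. -/
noncomputable def tor (Gj N : Subgroup G) : ℕ :=
  ((QuotientGroup.mk : G → G ⧸ N) '' {σ | σ ∈ Gj ∧ σ ^ 2 ∈ N}).ncard

/-- If the `2 ^ k`-th powers of the elements of `B` are in `W` modulo `N`, then the index of `N` in `B` is at
most the index of `N` in `W` up to 2-torsion. -/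
theorem relIndex_le_of_pow {N Gj B W : Subgroup G} [N.Normal] (hfin : N.relIndex Gj ≠ 0)
    (hN : ∀ σ ∈ Gj, ∀ τ ∈ Gj, σ * τ * σ⁻¹ * τ⁻¹ ∈ N) (hB : B ≤ Gj) (hW : W ≤ Gj) (k : ℕ)
    (h : ∀ b ∈ B, ∃ w ∈ W, (QuotientGroup.mk w : G ⧸ N) = QuotientGroup.mk b ^ 2 ^ k) :
    N.relIndex B ≤ tor Gj N ^ k * N.relIndex W := by
  classical
  set π : G →* G ⧸ N := QuotientGroup.mk' N with hπ
  have hker : π.ker = N := QuotientGroup.ker_mk' N
  set A : Subgroup (G ⧸ N) := Gj.map π with hA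
  have hcomm : ∀ a b : A, a * b = b * a := by
    rintro ⟨_, σ, hσ, rfl⟩ ⟨_, τ, hτ, rfl⟩
    apply Subtype.ext
    change π σ * π τ = π τ * π σ
    have h1 : π (σ * τ * σ⁻¹ * τ⁻¹) = 1 := by
      rw [← MonoidHom.mem_ker, hker]
      exact hN σ hσ τ hτ
    rw [map_mul, map_mul, map_mul, map_inv, map_inv, mul_inv_eq_one, mul_inv_eq_iff_eq_mul] at h1
    exact h1
  letI : CommGroup A := { (inferInstance : Group A) with mul_comm := hcomm }
  have hcard : Nat.card A = N.relIndex Gj := by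
    rw [hA, ← relIndex_ker, hker]
  haveI : Finite A := Nat.finite_of_card_ne_zero (by rw [hcard]; exact hfin)
  have hBA : B.map π ≤ A := Subgroup.map_mono hB
  have hWA : W.map π ≤ A := Subgroup.map_mono hW
  have key := card_le_of_pow (A := A) ((B.map π).subgroupOf A) ((W.map π).subgroupOf A) k (by
    rintro ⟨a, haA⟩ ha
    rw [mem_subgroupOf] at ha
    obtain ⟨b, hb, hba⟩ := ha
    obtain ⟨w, hw, hwb⟩ := h b hb
    rw [mem_subgroupOf]
    refine ⟨w, hw, ?_⟩
    change (QuotientGroup.mk w : G ⧸ N) = _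
    rw [hwb]
    change π b ^ 2 ^ k = _
    rw [hba]
    rfl)
  have c1 : Nat.card ((B.map π).subgroupOf A) = N.relIndex B := by
    rw [Nat.card_congr (subgroupOfEquivOfLe hBA).toEquiv, ← relIndex_ker, hker]
  have c2 : Nat.card ((W.map π).subgroupOf A) = N.relIndex W := by
    rw [Nat.card_congr (subgroupOfEquivOfLe hWA).toEquiv, ← relIndex_ker, hker]
  rw [c1, c2] at key
  refine key.trans (Nat.mul_le_mul_right _ (Nat.pow_le_pow_left ?_ k))
  -- the kernel of squaring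
  have hfinA : (A : Set (G ⧸ N)).Finite := Set.toFinite _
  have hsub : (QuotientGroup.mk : G → G ⧸ N) '' {σ | σ ∈ Gj ∧ σ ^ 2 ∈ N} ⊆ (A : Set (G ⧸ N)) := by
    rintro _ ⟨σ, hσ, rfl⟩
    exact ⟨σ, hσ.1, rfl⟩
  have hinj : Function.Injective fun a : (powMonoidHom 2 : A →* A).ker => ((a : A) : G ⧸ N) :=
    fun a b hab => Subtype.ext (Subtype.ext hab)
  rw [tor, ← Set.ncard_univ, ← Set.ncard_image_of_injective _ hinj]
  refine Set.ncard_le_ncard ?_ (hfinA.subset hsub)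
  rintro _ ⟨⟨⟨a, σ, hσ, rfl⟩, ha⟩, -, rfl⟩
  refine ⟨σ, ⟨hσ, ?_⟩, rfl⟩
  rw [MonoidHom.mem_ker, powMonoidHom_apply] at ha
  have h3 := congrArg (fun x : A => (x : G ⧸ N)) ha
  have h4 : π σ ^ 2 = 1 := h3
  rw [← map_pow, ← MonoidHom.mem_ker, hker] at h4
  exact h4

end

end Pool.Agent.U980.EQ
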