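import Mathlib
import Pool.Agent.U980.EQ.Grp

/-!
# CM points on modular curves: the data and the known facts
-/

set_option autoImplicit false

namespace Pool.Agent.U980.EQ

open MeasureTheory Filter Topology ProbabilityTheory

/-- The data of a modular curve `Y`, for the group `G = Gal(ℚ̄/ℚ)` and the set `𝒦` of imaginary quadratic
fields (in `ℚ̄`). The curve `Y` is a component of a (geometrically disconnected) modular curve over `ℚ`, the
Shimura variety of `GL₂` with some level. -/
structure CMCurve (G 𝒦 : Type) [Group G] where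
  /-- the CM points of the modular curve over `ℚ`, with the action of `G` -/
  P : Type
  [act : MulAction G P]
  /-- the imaginary quadratic field of a CM point -/
  fld : P → 𝒦
  /-- the absolute value of the discriminant of the quadratic order of a CM point -/
  disc : P → ℕ
  /-- the Galois group of `ℚ̄` over the ring class field of this order -/
  N : P → Subgroup G
  /-- the space of complex points of the modular curve over `ℚ` -/
  X : Type
  [top : TopologicalSpace X]
  [metr : TopologicalSpace.MetrizableSpace X]
  [sc : SecondCountableTopology X]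
  [ms : MeasurableSpace X]
  [bs : BorelSpace X]
  /-- the complex point given by a CM point -/
  pt : P → X
  /-- the CM points which lie on the component `Y` -/
  comp : Set P
  /-- the hyperbolic probability measure on `Y` -/
  m : Measure X
  [prob : IsProbabilityMeasure m]

attribute [instance] CMCurve.act CMCurve.top CMCurve.metr CMCurve.sc CMCurve.ms CMCurve.bs CMCurve.prob

variable {G 𝒦 : Type} [Group G]

/-- The Galois groups `gal K` of `ℚ̄` over the imaginary quadratic fields `K`: different subgroups of
index two. -/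
def IsQuadratic (gal : 𝒦 → Subgroup G) : Prop :=
  Function.Injective gal ∧ ∀ K, (gal K).index = 2

/-- The facts from the theory of complex multiplication and the genus theory of Gauss. -/
structure IsCM (gal : 𝒦 → Subgroup G) (Γ : Subgroup G) (Y : CMCurve G 𝒦) : Prop where
  pt_inj : Function.Injective Y.pt
  comp_smul : ∀ g ∈ Γ, ∀ y ∈ Y.comp, g • y ∈ Y.comp
  fld_smul : ∀ (g : G) (y : Y.P), Y.fld (g • y) = Y.fld y
  disc_smul : ∀ (g : G) (y : Y.P), Y.disc (g • y) = Y.disc y
  N_smul : ∀ (g : G) (y : Y.P), Y.N (g • y) = Y.N y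
  /-- CM points are defined over number fields -/
  finite_orbit : ∀ y : Y.P, (MulAction.orbit G y).Finite
  /-- there are finitely many CM points with bounded discriminant -/
  finite_disc : ∀ B : ℕ, {y | Y.disc y ≤ B}.Finite
  /-- the ring class field is a finite Galois extension of `ℚ`, which contains `K` -/
  N_normal : ∀ y, (Y.N y).Normal
  N_index : ∀ y, (Y.N y).index ≠ 0
  N_le : ∀ y, Y.N y ≤ gal (Y.fld y)
  /-- it is abelian over `K` -/
  comm : ∀ y, ∀ σ ∈ gal (Y.fld y), ∀ τ ∈ gal (Y.fld y), σ * τ * σ⁻¹ * τ⁻¹ ∈ Y.N y
  /-- `Gal(H/ℚ)` is generalized dihedral -/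
  inv : ∀ y, ∀ g ∉ gal (Y.fld y), ∀ σ ∈ gal (Y.fld y), g * σ * g⁻¹ * σ ∈ Y.N y
  /-- CM points are defined over abelian extensions of `K` -/
  abelian : ∀ y, ∀ σ ∈ gal (Y.fld y), ∀ τ ∈ gal (Y.fld y), σ • τ • y = τ • σ • y
  /-- the field of definition over `K` contains the ring class field -/
  stab : ∀ y, ∀ σ ∈ gal (Y.fld y), σ • y = y → σ ∈ Y.N y
  /-- its degree over the ring class field is bounded in terms of the level -/
  bounded : ∃ C : ℕ, ∀ y, (MulAction.orbit (Y.N y) y).ncard ≤ C
  /-- the 2-torsion of class groups of quadratic orders -/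
  genus : ∀ ε : ℝ, 0 < ε → ∃ C : ℝ, ∀ y, (tor (gal (Y.fld y)) (Y.N y) : ℝ) ≤ C * (Y.disc y : ℝ) ^ ε
  /-- a weak bound for the class number, the degree of the ring class field over `K` -/
  class_number : ∃ C : ℝ, ∀ y, ((Y.N y).relIndex (gal (Y.fld y)) : ℝ) ≤ C * Y.disc y

/-- Equidistribution of the orbits of large subgroups of the Galois group on one modular curve: if the
CM points `y i` on `Y` have discriminants which tend to infinity, and the orbits of `y i` under subgroups
`Δ i` of `Gal(ℚ̄/K F)` are not smaller than the orbits under `Γ = Gal(ℚ̄/F)` by a factor of more than `|D| ^ δ`,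
then they are equidistributed. -/
def SparseEquidistribution (gal : 𝒦 → Subgroup G) (Γ : Subgroup G) (Y : CMCurve G 𝒦) (δ : ℝ) : Prop :=
  ∀ (y : ℕ → Y.P) (Δ : ℕ → Subgroup G), (∀ i, y i ∈ Y.comp) →
    (∀ i, Δ i ≤ Γ ⊓ gal (Y.fld (y i))) → Tendsto (fun i => Y.disc (y i)) atTop atTop →
    (∀ᶠ i in atTop, ((MulAction.orbit Γ (y i)).ncard : ℝ) ≤
      (Y.disc (y i) : ℝ) ^ δ * (MulAction.orbit (Δ i) (y i)).ncard) →
    ∀ f : BoundedContinuousFunction Y.X ℝ,
      Tendsto (fun i => ∫ z, f z ∂(uniformOn (Y.pt '' MulAction.orbit (Δ i) (y i)))) atTop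
        (𝓝 (∫ z, f z ∂Y.m))

section tuple

variable {ι : Type} {Y : ι → CMCurve G 𝒦}

/-- The group fixing the intersection of the ring class field of `x j` with the composite of the ring class
fields of the coordinates `x k` with the same CM field which precede `x j`, in the order given by the
ranks `r`. -/
def common (r : ι → ℕ) (x : ∀ j, (Y j).P) (j : ι) : Subgroup G :=
  (Y j).N (x j) ⊔ ⨅ k, ⨅ _ : r k < r j ∧ (Y k).fld (x k) = (Y j).fld (x j), (Y k).N (x k)

/-- The overlap of the `j`-th coordinate: the degree over `K` of the intersection of the ring class field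
of `x j` with the composite of the ring class fields of the preceding coordinates with the same CM
field `K` (it is `1` if there are no such coordinates). -/
noncomputable def overlap (gal : 𝒦 → Subgroup G) (r : ι → ℕ) (x : ∀ j, (Y j).P) (j : ι) : ℕ :=
  (common r x j).relIndex (gal ((Y j).fld (x j)))

/-- The uniform probability measure on the Galois orbit of `x`. -/
noncomputable def galoisMeasure (Γ : Subgroup G) (x : ∀ j, (Y j).P) : Measure (∀ j, (Y j).X) :=
  uniformOn ((fun (y : ∀ j, (Y j).P) j => (Y j).pt (y j)) '' MulAction.orbit Γ x)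

end tuple

end Pool.Agent.U980.EQ
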