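import Mathlib
import Pool.Agent.U980.EQ.Defs

/-!
# Comparison of the Galois orbit of one coordinate with its orbit when the other coordinates are fixed
-/

set_option autoImplicit false

namespace Pool.Agent.U980.EQ

open Subgroup MulAction

variable {G 𝒦 : Type} [Group G]

theorem rel_ne {H : Subgroup G} (h : H.index ≠ 0) (K : Subgroup G) : H.relIndex K ≠ 0 := by
  intro h0
  exact h (by rw [← relIndex_top_right]; exact relIndex_eq_zero_of_le_right le_top h0)

theorem rel_le {H : Subgroup G} (h : H.index ≠ 0) (K : Subgroup G) : H.relIndex K ≤ H.index := by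
  rw [← relIndex_top_right]
  exact relIndex_le_of_le_right le_top (rel_ne h ⊤)

theorem orbit_ncard {P : Type} [MulAction G P] (H : Subgroup G) (p : P) :
    (orbit H p).ncard = (stabilizer G p).relIndex H := by
  rw [← index_stabilizer, relIndex]
  congr 1

theorem stab_index {P : Type} [MulAction G P] {p : P} (h : (orbit G p).Finite) :
    (stabilizer G p).index ≠ 0 := by
  rw [index_stabilizer]
  exact (Set.ncard_pos h).2 ⟨p, mem_orbit_self p⟩ |>.ne'

variable {gal : 𝒦 → Subgroup G} {Γ : Subgroup G}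

/-- The elements of `N` which act trivially on the `G`-orbit have bounded index in `N`. -/
theorem core_le {Y : CMCurve G 𝒦} (hgal : IsQuadratic gal) (hY : IsCM gal Γ Y) {C : ℕ}
    (hC : ∀ y : Y.P, (orbit (Y.N y) y).ncard ≤ C) (y : Y.P) :
    (stabilizer G y).normalCore.relIndex (Y.N y) ≤ C ^ 2 := by
  set K := Y.fld y with hK
  have h2 := hgal.2 K
  obtain ⟨g0, hg0⟩ : ∃ g0, g0 ∉ gal K := by
    by_contra hcon
    push Not at hcon
    rw [(eq_top_iff' _).2 hcon] at h2
    simp at h2
  have hmul : ∀ g ∉ gal K, g * g0⁻¹ ∈ gal K := by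
    intro g hg
    rw [mul_mem_iff_of_index_two h2, inv_mem_iff]
    exact ⟨fun h => absurd h hg, fun h => absurd h hg0⟩
  have hsub : (stabilizer G y ⊓ stabilizer G (g0 • y)) ⊓ Y.N y ≤ (stabilizer G y).normalCore := by
    rintro u ⟨⟨hu1, hu2⟩, huN⟩ b
    have huK : u ∈ gal K := hY.N_le y huN
    have hu1' : u • y = y := hu1
    have hu2' : u • g0 • y = g0 • y := hu2
    have hall : ∀ g : G, u • g • y = g • y := by
      intro g
      by_cases hg : g ∈ gal K
      · rw [hY.abelian y u huK g hg, hu1']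
      · have h3 := hY.abelian (g0 • y) u (by rw [hY.fld_smul]; exact huK) (g * g0⁻¹)
          (by rw [hY.fld_smul]; exact hmul g hg)
        have e : (g * g0⁻¹) • g0 • y = g • y := by rw [smul_smul]; simp
        rw [e, hu2', e] at h3
        exact h3
    change (b * u * b⁻¹) • y = y
    rw [mul_smul, mul_smul, hall b⁻¹, smul_smul]
    simp
  have hne : (stabilizer G y ⊓ stabilizer G (g0 • y)).index ≠ 0 :=
    index_inf_ne_zero (stab_index (hY.finite_orbit _)) (stab_index (hY.finite_orbit _))
  calc (stabilizer G y).normalCore.relIndex (Y.N y)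
      ≤ ((stabilizer G y ⊓ stabilizer G (g0 • y)) ⊓ Y.N y).relIndex (Y.N y) :=
        relIndex_le_of_le_left hsub (by rw [inf_relIndex_right]; exact rel_ne hne _)
    _ = (stabilizer G y ⊓ stabilizer G (g0 • y)).relIndex (Y.N y) := inf_relIndex_right _ _
    _ ≤ (stabilizer G y).relIndex (Y.N y) * (stabilizer G (g0 • y)).relIndex (Y.N y) := relIndex_inf_le
    _ ≤ C * C := by
        refine Nat.mul_le_mul ?_ ?_
        · rw [← orbit_ncard]; exact hC y
        · rw [← orbit_ncard, ← hY.N_smul g0 y]; exact hC (g0 • y)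
    _ = C ^ 2 := (sq C).symm

theorem core_index {P : Type} [MulAction G P] {p : P} (h : (orbit G p).Finite) :
    (stabilizer G p).normalCore.index ≠ 0 := by
  have : (stabilizer G p).FiniteIndex := ⟨stab_index h⟩
  exact (inferInstance : (stabilizer G p).normalCore.FiniteIndex).index_ne_zero

variable {ι : Type} [Fintype ι] {Y : ι → CMCurve G 𝒦}

/-- The subgroup `Δ j`, which moves only the `j`-th coordinate. -/
theorem exists_delta (hgal : IsQuadratic gal) (hΓ : Γ.index ≠ 0) (hY : ∀ j, IsCM gal Γ (Y j)) :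
    ∃ c : ℕ, ∀ (r : ι → ℕ) (x : ∀ j, (Y j).P), ∃ Δ : ι → Subgroup G,
      (∀ j, (Δ j).Normal) ∧ (∀ j, Δ j ≤ Γ ⊓ gal ((Y j).fld (x j))) ∧
      (∀ j k, r k < r j → ∀ δ ∈ Δ j, ∀ g : G, δ • g • x k = g • x k) ∧
      ∀ j, (orbit Γ (x j)).ncard ≤ c * overlap gal r x j *
        tor (gal ((Y j).fld (x j))) ((Y j).N (x j)) ^ Fintype.card ι * (orbit (Δ j) (x j)).ncard := by
  classical
  choose C hC using fun j => (hY j).bounded
  have hΓc : Γ.normalCore.index ≠ 0 := by
    have : Γ.FiniteIndex := ⟨hΓ⟩
    exact (inferInstance : Γ.normalCore.FiniteIndex).index_ne_zero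
  set c0 := Γ.normalCore.index * 2 ^ Fintype.card ι with hc0
  set c1 := ∏ k, (C k ^ 2 + 1) with hc1
  set c2 := ∑ k, C k with hc2
  refine ⟨c2 * c0 * (c0 * c1), fun r x => ?_⟩
  set N : ι → Subgroup G := fun k => (Y k).N (x k) with hN
  set Gk : ι → Subgroup G := fun k => gal ((Y k).fld (x k)) with hGk
  have hNn : ∀ k, (N k).Normal := fun k => (hY k).N_normal (x k)
  have hGn : ∀ k, (Gk k).Normal := fun k => normal_of_index_eq_two (hgal.2 _)
  set U : Subgroup G := Γ.normalCore ⊓ ⨅ k, Gk k with hU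
  have hUn : U.Normal := by
    haveI := normal_iInf_normal hGn
    infer_instance
  have hUG : ∀ k, U ≤ Gk k := fun k => inf_le_right.trans (iInf_le _ k)
  have hUΓ : U ≤ Γ := inf_le_left.trans (normalCore_le Γ)
  have hUi : U.index ≤ c0 := by
    refine index_inf_le.trans (Nat.mul_le_mul_left _ ((index_iInf_le _).trans ?_))
    simp [hGk, hgal.2]
  have hU0 : U.index ≠ 0 :=
    index_inf_ne_zero hΓc (index_iInf_ne_zero fun k => by rw [hgal.2]; norm_num)
  have hN0 : ∀ k, (N k).index ≠ 0 := fun k => (hY k).N_index (x k)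
  set κ : ι → Subgroup G := fun k => (stabilizer G (x k)).normalCore with hκ
  have hκ0 : ∀ k, (κ k).index ≠ 0 := fun k => core_index ((hY k).finite_orbit (x k))
  set V : ι → Subgroup G := fun j => U ⊓ ⨅ k, (if r k < r j then N k else ⊤) with hV
  have hVn : ∀ j, (V j).Normal := by
    intro j
    haveI : (⨅ k, (if r k < r j then N k else ⊤) : Subgroup G).Normal := by
      refine normal_iInf_normal fun k => ?_
      split_ifs
      · exact hNn k
      · infer_instance
    change (U ⊓ _ : Subgroup G).Normal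
    infer_instance
  have hVU : ∀ j, V j ≤ U := fun j => inf_le_left
  have hVN : ∀ j k, r k < r j → V j ≤ N k := by
    intro j k hk
    refine inf_le_right.trans ((iInf_le _ k).trans ?_)
    rw [if_pos hk]
  set Δ : ι → Subgroup G := fun j => V j ⊓ ⨅ k, (if r k < r j then κ k else ⊤) with hΔ
  have hΔV : ∀ j, Δ j ≤ V j := fun j => inf_le_left
  refine ⟨Δ, ?_, ?_, ?_, ?_⟩
  · intro j
    haveI : (⨅ k, (if r k < r j then κ k else ⊤) : Subgroup G).Normal := by
      refine normal_iInf_normal fun k => ?_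
      split_ifs
      · exact normalCore_normal _
      · infer_instance
    haveI := hVn j
    change (V j ⊓ _ : Subgroup G).Normal
    infer_instance
  · intro j
    exact le_inf ((hΔV j).trans ((hVU j).trans hUΓ)) ((hΔV j).trans ((hVU j).trans (hUG j)))
  · intro j k hk δ hδ g
    have h1 : δ ∈ κ k := by
      have h2 : Δ j ≤ κ k := inf_le_right.trans ((iInf_le _ k).trans (by rw [if_pos hk]))
      exact h2 hδ
    have h3 : (g⁻¹ * δ * g⁻¹⁻¹) • x k = x k := h1 g⁻¹
    rw [inv_inv, mul_smul, mul_smul, inv_smul_eq_iff] at h3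
    exact h3
  · intro j
    set S := stabilizer G (x j) with hS
    have hS0 : S.index ≠ 0 := stab_index ((hY j).finite_orbit (x j))
    set s := Finset.univ.filter fun k => r k < r j ∧ (Y k).fld (x k) ≠ (Y j).fld (x j) with hs
    set M : Subgroup G := ⨅ k, ⨅ _ : r k < r j ∧ (Y k).fld (x k) = (Y j).fld (x j), N k with hM
    haveI hMn : M.Normal := normal_iInf_normal fun k => normal_iInf_normal fun _ => hNn k
    haveI := hNn j
    haveI := hGn j
    set t := tor (Gk j) (N j) with ht
    have ht1 : 1 ≤ t := by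
      refine (Set.ncard_pos ?_).2 ⟨_, 1, ⟨one_mem _, by simp⟩, rfl⟩
      have : (N j).FiniteIndex := ⟨hN0 j⟩
      exact Set.toFinite _
    -- step a
    have a1 : S.relIndex Γ ≤ S.relIndex U * c0 := by
      calc S.relIndex Γ ≤ (S ⊓ U).relIndex Γ :=
            relIndex_le_of_le_left inf_le_left (rel_ne (index_inf_ne_zero hS0 hU0) _)
        _ = S.relIndex (U ⊓ Γ) * U.relIndex Γ := (relIndex_inf_mul_relIndex _ _ _).symm
        _ = S.relIndex U * U.relIndex Γ := by rw [inf_of_le_left hUΓ]
        _ ≤ S.relIndex U * c0 := Nat.mul_le_mul_left _ ((rel_le hU0 _).trans hUi)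
    have a2 : S.relIndex U ≤ c2 * (N j).relIndex (Gk j) := by
      calc S.relIndex U ≤ (S ⊓ N j).relIndex U :=
            relIndex_le_of_le_left inf_le_left (rel_ne (index_inf_ne_zero hS0 (hN0 j)) _)
        _ = S.relIndex (N j ⊓ U) * (N j).relIndex U := (relIndex_inf_mul_relIndex _ _ _).symm
        _ ≤ S.relIndex (N j) * (N j).relIndex (Gk j) := Nat.mul_le_mul
            (relIndex_le_of_le_right inf_le_left (rel_ne hS0 _))
            (relIndex_le_of_le_right (hUG j) (rel_ne (hN0 j) _))
        _ ≤ c2 * (N j).relIndex (Gk j) := by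
            refine Nat.mul_le_mul_right _ ?_
            rw [← orbit_ncard]
            exact (hC j (x j)).trans (Finset.single_le_sum (f := C) (fun _ _ => Nat.zero_le _)
              (Finset.mem_univ j))
    -- step b
    set B : Subgroup G := U ⊓ (M ⊓ Gk j) with hB
    have hBn : B.Normal := inferInstance
    have b1 : (N j).relIndex (Gk j) ≤ (N j).relIndex B * c0 * overlap gal r x j := by
      have e1 : (N j).relIndex ((N j ⊔ M) ⊓ Gk j) * (N j ⊔ M).relIndex (Gk j) =
          (N j ⊓ (N j ⊔ M)).relIndex (Gk j) := relIndex_inf_mul_relIndex _ _ _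
      rw [inf_of_le_left (le_sup_left : N j ≤ N j ⊔ M)] at e1
      have e2 : (N j ⊔ M) ⊓ Gk j ≤ N j ⊔ (M ⊓ Gk j) := by
        rintro z ⟨hz1, hz2⟩
        replace hz1 : z ∈ N j ⊔ M := hz1
        rw [mem_sup_of_normal_left] at hz1
        obtain ⟨a, ha, b, hb, rfl⟩ := hz1
        refine mul_mem (mem_sup_left ha) (mem_sup_right ⟨hb, ?_⟩)
        have ha' : a ∈ Gk j := (hY j).N_le (x j) ha
        have := (Gk j).mul_mem ((Gk j).inv_mem ha') hz2
        simpa using this
      have e3 : (N j).relIndex ((N j ⊔ M) ⊓ Gk j) ≤ (N j).relIndex (M ⊓ Gk j) := by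
        refine (relIndex_le_of_le_right e2 (rel_ne (hN0 j) _)).trans (le_of_eq ?_)
        rw [sup_comm, relIndex_sup_right]
      have e4 : (N j).relIndex (M ⊓ Gk j) ≤ (N j).relIndex B * c0 := by
        calc (N j).relIndex (M ⊓ Gk j) ≤ (N j ⊓ U).relIndex (M ⊓ Gk j) :=
              relIndex_le_of_le_left inf_le_left (rel_ne (index_inf_ne_zero (hN0 j) hU0) _)
          _ = (N j).relIndex B * U.relIndex (M ⊓ Gk j) := (relIndex_inf_mul_relIndex _ _ _).symm
          _ ≤ (N j).relIndex B * c0 := Nat.mul_le_mul_left _ ((rel_le hU0 _).trans hUi)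
      rw [← e1]
      exact Nat.mul_le_mul_right _ (e3.trans e4)
    -- step c
    have c1' : (N j).relIndex B ≤ t ^ s.card * (N j).relIndex (V j) := by
      refine relIndex_le_of_pow (rel_ne (hN0 j) _) ((hY j).comm (x j))
        (inf_le_right.trans inf_le_right) ((hVU j).trans (hUG j)) s.card fun b hb => ?_
      obtain ⟨v, hv, hvs, hvb⟩ := iterate (N := N j) (Gj := Gk j) (U := B) ((hY j).comm (x j))
        (inf_le_right.trans inf_le_right) N Gk hNn (fun k => (hY k).inv (x k)) s (by
          intro k hk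
          rw [hs, Finset.mem_filter] at hk
          refine ⟨inf_le_left.trans (hUG k), ?_⟩
          refine exists_mem_not_mem (hgal.2 _) (hgal.2 _) fun h => ?_
          exact hk.2.2 (hgal.1 h).symm) b hb
      refine ⟨v, ⟨hv.1, ?_⟩, hvb⟩
      change v ∈ (⨅ k, if r k < r j then N k else ⊤ : Subgroup G)
      rw [mem_iInf]
      intro k
      split_ifs with hkj
      · by_cases hf : (Y k).fld (x k) = (Y j).fld (x j)
        · have h5 : M ≤ N k := (iInf_le _ k).trans (iInf_le _ ⟨hkj, hf⟩)
          exact h5 hv.2.1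
        · exact hvs k (by rw [hs, Finset.mem_filter]; exact ⟨Finset.mem_univ k, hkj, hf⟩)
      · exact mem_top v
    have c2' : t ^ s.card ≤ t ^ Fintype.card ι :=
      Nat.pow_le_pow_right ht1 (Finset.card_le_univ s)
    -- step d
    have d1 : (N j).relIndex (V j) ≤ S.relIndex (V j) := by
      rw [← inf_relIndex_right S (V j)]
      refine relIndex_le_of_le_left ?_ (by rw [inf_relIndex_right]; exact rel_ne hS0 _)
      rintro v ⟨hv1, hv2⟩
      exact (hY j).stab (x j) v (hUG j (hVU j hv2)) hv1
    have d2 : (Δ j).relIndex (V j) ≤ c1 := by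
      have : (Δ j).relIndex (V j) = (⨅ k, (if r k < r j then κ k else ⊤) : Subgroup G).relIndex (V j) := by
        rw [hΔ]
        exact inf_relIndex_left _ _
      rw [this]
      refine (relIndex_iInf_le _).trans (Finset.prod_le_prod' fun k _ => ?_)
      split_ifs with hkj
      · refine ((relIndex_le_of_le_right (hVN j k hkj) (rel_ne (hκ0 k) _)).trans
          (core_le hgal (hY k) (hC k) (x k))).trans (Nat.le_succ _)
      · rw [relIndex_top_left]
        omega
    have d3 : S.relIndex (V j) ≤ S.relIndex (Δ j) * c1 := by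
      have hΔ0 : (Δ j).relIndex (V j) ≠ 0 := by
        have : (Δ j).relIndex (V j) = (⨅ k, (if r k < r j then κ k else ⊤) : Subgroup G).relIndex (V j) := by
          rw [hΔ]
          exact inf_relIndex_left _ _
        rw [this]
        refine rel_ne (index_iInf_ne_zero fun k => ?_) _
        split_ifs
        · exact hκ0 k
        · simp
      calc S.relIndex (V j) ≤ (S ⊓ Δ j).relIndex (V j) :=
            relIndex_le_of_le_left inf_le_left (relIndex_inf_ne_zero (rel_ne hS0 _) hΔ0)
        _ = S.relIndex (Δ j ⊓ V j) * (Δ j).relIndex (V j) := (relIndex_inf_mul_relIndex _ _ _).symm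
        _ = S.relIndex (Δ j) * (Δ j).relIndex (V j) := by rw [inf_of_le_left (hΔV j)]
        _ ≤ S.relIndex (Δ j) * c1 := Nat.mul_le_mul_left _ d2
    rw [orbit_ncard, orbit_ncard]
    calc S.relIndex Γ ≤ S.relIndex U * c0 := a1
      _ ≤ (c2 * (N j).relIndex (Gk j)) * c0 := Nat.mul_le_mul_right _ a2
      _ ≤ (c2 * ((N j).relIndex B * c0 * overlap gal r x j)) * c0 :=
          Nat.mul_le_mul_right _ (Nat.mul_le_mul_left _ b1)
      _ ≤ (c2 * ((t ^ Fintype.card ι * (S.relIndex (Δ j) * c1)) * c0 * overlap gal r x j)) * c0 := by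
          refine Nat.mul_le_mul_right _ (Nat.mul_le_mul_left _ (Nat.mul_le_mul_right _
            (Nat.mul_le_mul_right _ ?_)))
          exact c1'.trans (Nat.mul_le_mul c2' (d1.trans d3))
      _ = c2 * c0 * (c0 * c1) * overlap gal r x j * t ^ Fintype.card ι * S.relIndex (Δ j) := by ring

/-- The overlap is at most the product of the class numbers of the preceding coordinates with the same
CM field. -/
theorem overlap_le (hY : ∀ j, IsCM gal Γ (Y j)) (r : ι → ℕ) (x : ∀ j, (Y j).P) (j : ι) [DecidableEq 𝒦] :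
    overlap gal r x j ≤ ∏ k, (if r k < r j ∧ (Y k).fld (x k) = (Y j).fld (x j)
      then ((Y k).N (x k)).relIndex (gal ((Y k).fld (x k))) else 1) := by
  classical
  have h0 : (⨅ k, ⨅ _ : r k < r j ∧ (Y k).fld (x k) = (Y j).fld (x j), (Y k).N (x k)) =
      ⨅ k, (if r k < r j ∧ (Y k).fld (x k) = (Y j).fld (x j) then (Y k).N (x k) else ⊤) := by
    refine iInf_congr fun k => ?_
    split_ifs with h
    · simp [h]
    · simp [h]
  have h1 : (⨅ k, (if r k < r j ∧ (Y k).fld (x k) = (Y j).fld (x j) then (Y k).N (x k) else ⊤) :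
      Subgroup G).index ≠ 0 := by
    refine index_iInf_ne_zero fun k => ?_
    split_ifs
    · exact (hY k).N_index (x k)
    · simp
  rw [overlap, common, h0]
  refine (relIndex_le_of_le_left le_sup_right (rel_ne h1 _)).trans ((relIndex_iInf_le _).trans
    (Finset.prod_le_prod' fun k _ => ?_))
  split_ifs with h
  · rw [h.2]
  · simp

theorem overlap_eq_one {r : ι → ℕ} {x : ∀ j, (Y j).P}
    (h : Function.Injective fun j => (Y j).fld (x j)) (j : ι) : overlap gal r x j = 1 := by
  have h0 : (⨅ k, ⨅ _ : r k < r j ∧ (Y k).fld (x k) = (Y j).fld (x j), (Y k).N (x k)) = ⊤ := by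
    refine iInf_eq_top.2 fun k => iInf_eq_top.2 fun hk => ?_
    have : k = j := h hk.2
    rw [this] at hk
    exact absurd hk.1 (lt_irrefl _)
  rw [overlap, common, h0, sup_top_eq, relIndex_top_left]

end Pool.Agent.U980.EQ
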