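import Mathlib
import Pool.Agent.U980.EQ.Idx
import Pool.Agent.U980.EQ.Meas

/-!
# Equidistribution on products of modular curves
-/

set_option autoImplicit false

namespace Pool.Agent.U980.EQ

open MulAction MeasureTheory Filter Topology ProbabilityTheory

theorem orbit_smul_ncard {G P : Type} [Group G] [MulAction G P] {Δ : Subgroup G} (hΔ : Δ.Normal) (g : G)
    (p : P) : (orbit Δ (g • p)).ncard = (orbit Δ p).ncard := by
  have h : orbit Δ (g • p) = (fun q => g • q) '' orbit Δ p := by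
    ext q
    constructor
    · rintro ⟨d, rfl⟩
      refine ⟨(g⁻¹ * d * g) • p, ⟨⟨g⁻¹ * d * g, ?_⟩, rfl⟩, ?_⟩
      · have := hΔ.conj_mem d d.2 g⁻¹
        rwa [inv_inv] at this
      · change g • (g⁻¹ * (d : G) * g) • p = (d : G) • g • p
        simp [smul_smul, mul_assoc]
    · rintro ⟨_, ⟨d, rfl⟩, rfl⟩
      refine ⟨⟨g * d * g⁻¹, hΔ.conj_mem d d.2 g⟩, ?_⟩
      change (g * (d : G) * g⁻¹) • g • p = g • (d : G) • p
      simp [smul_smul]
  rw [h, Set.ncard_image_of_injective _ (MulAction.injective g)]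

section block

variable {G : Type} [Group G] {ι : Type} {P : ι → Type} [∀ j, MulAction G (P j)]

/-- One coordinate is averaged over the orbits of a normal subgroup which fixes the other coordinates
which occur in `h`. -/
theorem exists_far {Γ Δ : Subgroup G} (hΔ : Δ.Normal) (hle : Δ ≤ Γ) (hfin : ∀ j (p : P j), (orbit G p).Finite)
    {x : ∀ j, P j} {O : Finset (∀ j, P j)} (hO : (O : Set (∀ j, P j)) = orbit Γ x) {j : ι}
    (h : (∀ j, P j) → ℝ) (h1 : ∀ y ∈ O, |h y| ≤ 1) (hinv : ∀ y ∈ O, ∀ δ ∈ Δ, h (δ • y) = h y)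
    (φ : P j → ℝ) (μ : ℝ) : ∃ y ∈ O, ∀ T : Finset (P j), (T : Set (P j)) = orbit Δ (y j) →
      |av O (fun z => h z * φ (z j)) - μ * av O h| ≤ |av T φ - μ| := by
  classical
  have hsub : ∀ (H : Subgroup G) (j : ι) (p : P j), (orbit H p).Finite := by
    intro H j p
    refine (hfin j p).subset ?_
    rintro _ ⟨h, rfl⟩
    exact ⟨(h : G), rfl⟩
  have hmem : ∀ y, y ∈ O ↔ y ∈ orbit Γ x := fun y => by rw [← hO, Finset.mem_coe]
  have hxO : x ∈ O := (hmem x).2 (mem_orbit_self x)
  -- the blocks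
  have hRfin : ∀ y ∈ O, (orbit Δ y).Finite := by
    intro y hy
    refine (O.finite_toSet).subset ?_
    rintro _ ⟨d, rfl⟩
    rw [Finset.mem_coe, hmem]
    rw [hmem] at hy
    exact (orbit_eq_iff.2 hy) ▸ (⟨⟨d, hle d.2⟩, rfl⟩ : (d : G) • y ∈ orbit Γ y)
  set R : (∀ j, P j) → Finset (∀ j, P j) := fun y =>
    if hy : y ∈ O then (hRfin y hy).toFinset else ∅ with hR
  have hRy : ∀ y (hy : y ∈ O), (R y : Set (∀ j, P j)) = orbit Δ y := by
    intro y hy
    simp only [hR]
    rw [dif_pos hy, Set.Finite.coe_toFinset]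
  have hRmem : ∀ y ∈ O, ∀ z, z ∈ R y ↔ z ∈ orbit Δ y := fun y hy z => by
    rw [← hRy y hy, Finset.mem_coe]
  set b := (orbit Δ x).ncard with hb
  have hcard : ∀ y ∈ O, (R y).card = b := by
    intro y hy
    rw [← Set.ncard_coe_finset, hRy y hy]
    obtain ⟨g, rfl⟩ := (hmem y).1 hy
    exact orbit_smul_ncard hΔ (g : G) x
  have hb0 : 0 < b := (Set.ncard_pos (hRfin x hxO)).2 ⟨x, mem_orbit_self x⟩
  have hRO : ∀ y ∈ O, R y ⊆ O := by
    intro y hy z hz
    rw [hRmem y hy] at hz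
    obtain ⟨d, rfl⟩ := hz
    rw [hmem] at hy ⊢
    exact (orbit_eq_iff.2 hy) ▸ (⟨⟨d, hle d.2⟩, rfl⟩ : (d : G) • y ∈ orbit Γ y)
  -- averages over orbits in one coordinate
  set T : P j → Finset (P j) := fun p => (hsub Δ j p).toFinset with hT
  have hTp : ∀ p, (T p : Set (P j)) = orbit Δ p := fun p => Set.Finite.coe_toFinset _
  have havR : ∀ y ∈ O, (∑ z ∈ R y, h z * φ (z j)) / b = h y * av (T (y j)) φ := by
    intro y hy
    have e1 : ∑ z ∈ R y, h z * φ (z j) = h y * ∑ z ∈ R y, φ (z j) := by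
      rw [Finset.mul_sum]
      refine Finset.sum_congr rfl fun z hz => ?_
      rw [hRmem y hy] at hz
      obtain ⟨d, rfl⟩ := hz
      have h3 : h (d • y) = h y := hinv y hy d d.2
      rw [h3]
    have e2 : av (R y) (fun z => φ (z j)) = av (T (y j)) φ :=
      av_equiv (H := Δ) (π := fun z : ∀ j, P j => z j) (fun g a => rfl) y (hRy y hy) (hTp (y j)) φ
    rw [e1, ← e2, av, hcard y hy, mul_div_assoc]
  have hsum : ∑ y ∈ O, h y * φ (y j) = ∑ y ∈ O, h y * av (T (y j)) φ := by
    have e := avg_block O R b hb0 hRO hcard (fun y hy z hz hzy => by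
      rw [hRmem y hy] at hzy
      rw [hRmem z hz]
      exact mem_orbit_symm.1 hzy) (fun z => h z * φ (z j))
    rw [← e]
    exact Finset.sum_congr rfl havR
  have hOpos : (0 : ℝ) < O.card := by exact_mod_cast Finset.card_pos.2 ⟨x, hxO⟩
  have hdiff : av O (fun z => h z * φ (z j)) - μ * av O h =
      (∑ y ∈ O, h y * (av (T (y j)) φ - μ)) / O.card := by
    rw [av, av, hsum, mul_div_assoc', ← sub_div, Finset.mul_sum, ← Finset.sum_sub_distrib]
    congr 1
    exact Finset.sum_congr rfl fun y _ => by ring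
  obtain ⟨y, hy, hmax⟩ := Finset.exists_max_image O (fun y => |av (T (y j)) φ - μ|) ⟨x, hxO⟩
  refine ⟨y, hy, fun T' hT' => ?_⟩
  have hTT : T' = T (y j) := by
    apply Finset.coe_injective
    rw [hT', hTp]
  rw [hTT, hdiff, abs_div, abs_of_pos hOpos, div_le_iff₀ hOpos]
  refine (Finset.abs_sum_le_sum_abs _ _).trans ?_
  have : ∑ z ∈ O, |h z * (av (T (z j)) φ - μ)| ≤ ∑ _z ∈ O, |av (T (y j)) φ - μ| := by
    refine Finset.sum_le_sum fun z hz => ?_
    rw [abs_mul]
    calc |h z| * |av (T (z j)) φ - μ| ≤ 1 * |av (T (z j)) φ - μ| :=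
          mul_le_mul_of_nonneg_right (h1 z hz) (abs_nonneg _)
      _ ≤ |av (T (y j)) φ - μ| := by rw [one_mul]; exact hmax z hz
  refine this.trans (le_of_eq ?_)
  rw [Finset.sum_const, nsmul_eq_mul, mul_comm]

end block

variable {G 𝒦 : Type} [Group G] {gal : 𝒦 → Subgroup G} {Γ : Subgroup G}
  {ι : Type} [Fintype ι] {Y : ι → CMCurve G 𝒦}

theorem disc_tendsto {Y : CMCurve G 𝒦} (hY : IsCM gal Γ Y) {x : ℕ → Y.P}
    (hx : ∀ p, ∀ᶠ i in atTop, x i ≠ p) : Tendsto (fun i => Y.disc (x i)) atTop atTop := by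
  rw [tendsto_atTop]
  intro B
  have h := (eventually_all_finite (hY.finite_disc B)).2 fun p _ => hx p
  filter_upwards [h] with i hi
  by_contra hlt
  push Not at hlt
  exact hi (x i) hlt.le rfl

theorem growth {D : ℕ → ℕ} (hD : Tendsto D atTop atTop) {η δ : ℝ} (h : η < δ) (n : ℕ) (K c : ℝ)
    (C : ℝ → ℝ) : ∃ ε : ℝ, 0 < ε ∧ ∀ᶠ i in atTop,
      K * (c * (D i : ℝ) ^ η) * (C ε * (D i : ℝ) ^ ε) ^ n ≤ (D i : ℝ) ^ δ := by
  set ε : ℝ := (δ - η) / (2 * (n + 1)) with hε
  have hn : (0 : ℝ) < 2 * (n + 1) := by positivity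
  have hε0 : 0 < ε := div_pos (by linarith) hn
  refine ⟨ε, hε0, ?_⟩
  have h1 : (n : ℝ) * ε ≤ (δ - η) / 2 := by
    rw [hε, mul_div_assoc', div_le_div_iff₀ hn (by norm_num)]
    nlinarith [(Nat.cast_nonneg n : (0 : ℝ) ≤ n)]
  have hβ : 0 < δ - η - n * ε := by linarith
  have h2 : Tendsto (fun i => (D i : ℝ) ^ (δ - η - n * ε)) atTop atTop :=
    (tendsto_rpow_atTop hβ).comp (tendsto_natCast_atTop_atTop.comp hD)
  filter_upwards [h2.eventually_ge_atTop (K * c * C ε ^ n), hD.eventually_ge_atTop 1] with i hi hi1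
  have hpos : (0 : ℝ) < D i := by exact_mod_cast hi1
  have e1 : (D i : ℝ) ^ δ = (D i : ℝ) ^ (δ - η - n * ε) * ((D i : ℝ) ^ η * ((D i : ℝ) ^ ε) ^ n) := by
    rw [← Real.rpow_natCast ((D i : ℝ) ^ ε) n, ← Real.rpow_mul hpos.le, ← Real.rpow_add hpos,
      ← Real.rpow_add hpos]
    congr 1
    ring
  rw [e1]
  calc K * (c * (D i : ℝ) ^ η) * (C ε * (D i : ℝ) ^ ε) ^ n
      = (K * c * C ε ^ n) * ((D i : ℝ) ^ η * ((D i : ℝ) ^ ε) ^ n) := by rw [mul_pow]; ring
    _ ≤ _ := mul_le_mul_of_nonneg_right hi (by positivity)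

/-- **Main theorem.** -/
theorem main (hgal : IsQuadratic gal) (hΓ : Γ.index ≠ 0) (hY : ∀ j, IsCM gal Γ (Y j)) {δ : ℝ}
    (hE : ∀ j, SparseEquidistribution gal Γ (Y j) δ) (x : ℕ → ∀ j, (Y j).P)
    (hx : ∀ i j, x i j ∈ (Y j).comp) (hgen : ∀ j, ∀ p : (Y j).P, ∀ᶠ i in atTop, x i j ≠ p)
    (r : ℕ → ι → ℕ) (hr : ∀ i, Function.Injective (r i)) {η c : ℝ} (hη : η < δ)
    (hov : ∀ j, ∀ᶠ i in atTop, (overlap gal (r i) (x i) j : ℝ) ≤ c * ((Y j).disc (x i j) : ℝ) ^ η)
    (f : BoundedContinuousFunction (∀ j, (Y j).X) ℝ) :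
    Tendsto (fun i => ∫ z, f z ∂(galoisMeasure Γ (x i))) atTop
      (𝓝 (∫ z, f z ∂(Measure.pi fun j => (Y j).m))) := by
  classical
  obtain ⟨K, hK⟩ := exists_delta hgal hΓ hY
  choose Δ hΔn hΔle hΔfix hΔc using fun i => hK (r i) (x i)
  set F : (∀ j, (Y j).P) → ∀ j, (Y j).X := fun y j => (Y j).pt (y j) with hF
  have hFinj : Function.Injective F := by
    intro y z hyz
    funext j
    exact (hY j).pt_inj (congrFun hyz j)
  have hsub : ∀ (H : Subgroup G) (j : ι) (p : (Y j).P), (orbit H p).Finite := by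
    intro H j p
    refine ((hY j).finite_orbit p).subset ?_
    rintro _ ⟨h, rfl⟩
    exact ⟨(h : G), rfl⟩
  have hOfin : ∀ i, (orbit Γ (x i)).Finite := by
    intro i
    refine (Set.Finite.pi' fun j => hsub Γ j (x i j)).subset ?_
    rintro _ ⟨g, rfl⟩ j
    exact ⟨g, rfl⟩
  set O : ℕ → Finset (∀ j, (Y j).P) := fun i => (hOfin i).toFinset with hO
  have hOc : ∀ i, (O i : Set (∀ j, (Y j).P)) = orbit Γ (x i) := fun i => Set.Finite.coe_toFinset _
  have hOmem : ∀ i y, y ∈ O i ↔ y ∈ orbit Γ (x i) := fun i y => Set.Finite.mem_toFinset _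
  have hxO : ∀ i, x i ∈ O i := fun i => (hOmem i _).2 (mem_orbit_self _)
  have hOj : ∀ i, ∀ y ∈ O i, ∀ j, ∃ g ∈ Γ, y j = g • x i j := by
    intro i y hy j
    obtain ⟨g, hg⟩ := (hOmem i y).1 hy
    exact ⟨g, g.2, by rw [← hg]; rfl⟩
  -- the equidistribution in one coordinate
  have one : ∀ (j : ι) (y : ℕ → ∀ j, (Y j).P), (∀ i, y i ∈ O i) →
      ∀ f' : BoundedContinuousFunction (Y j).X ℝ,
      Tendsto (fun i => ∫ z, f' z ∂(uniformOn ((Y j).pt '' orbit (Δ i j) (y i j)))) atTop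
        (𝓝 (∫ z, f' z ∂(Y j).m)) := by
    intro j y hy f'
    have hdisc : ∀ i, (Y j).disc (y i j) = (Y j).disc (x i j) := by
      intro i
      obtain ⟨g, -, hg⟩ := hOj i _ (hy i) j
      rw [hg, (hY j).disc_smul]
    have hD : Tendsto (fun i => (Y j).disc (x i j)) atTop atTop := disc_tendsto (hY j) (hgen j)
    refine hE j (fun i => y i j) (fun i => Δ i j) ?_ ?_ ?_ ?_ f'
    · intro i
      obtain ⟨g, hg, hgy⟩ := hOj i _ (hy i) j
      rw [hgy]
      exact (hY j).comp_smul g hg _ (hx i j)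
    · intro i
      obtain ⟨g, hg, hgy⟩ := hOj i _ (hy i) j
      rw [hgy, (hY j).fld_smul]
      exact hΔle i j
    · exact hD.congr fun i => (hdisc i).symm
    · choose C hC using fun (ε : ℝ) (hε : 0 < ε) => (hY j).genus ε hε
      obtain ⟨ε, hε, hgr⟩ := growth hD hη (Fintype.card ι) (K : ℝ) c
        (fun ε => if h : 0 < ε then C ε h else 0)
      simp only [dif_pos hε] at hgr
      filter_upwards [hgr, hov j] with i hi hovi
      have h2 := hΔc i j
      have h3 : ((orbit Γ (x i j)).ncard : ℝ) ≤ (K : ℝ) * overlap gal (r i) (x i) j *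
          (tor (gal ((Y j).fld (x i j))) ((Y j).N (x i j)) : ℝ) ^ Fintype.card ι *
            (orbit (Δ i j) (x i j)).ncard := by exact_mod_cast h2
      have h4 : orbit Γ (y i j) = orbit Γ (x i j) := by
        obtain ⟨g, hg, hgy⟩ := hOj i _ (hy i) j
        rw [hgy]
        exact orbit_eq_iff.2 ⟨⟨g, hg⟩, rfl⟩
      have h5 : (orbit (Δ i j) (y i j)).ncard = (orbit (Δ i j) (x i j)).ncard := by
        obtain ⟨g, hg, hgy⟩ := hOj i _ (hy i) j
        rw [hgy]
        exact orbit_smul_ncard (hΔn i j) g _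
      rw [hdisc i, h4, h5]
      refine h3.trans (mul_le_mul_of_nonneg_right ?_ (Nat.cast_nonneg _))
      refine le_trans ?_ hi
      refine mul_le_mul (mul_le_mul_of_nonneg_left hovi (Nat.cast_nonneg _))
        (pow_le_pow_left₀ (Nat.cast_nonneg _) (hC ε hε (x i j)) _) (by positivity) ?_
      exact mul_nonneg (Nat.cast_nonneg _) ((Nat.cast_nonneg _).trans hovi)
  -- probability measures
  let μ : ∀ j, ProbabilityMeasure (Y j).X := fun j => ⟨(Y j).m, inferInstance⟩
  let ν : ℕ → ProbabilityMeasure (∀ j, (Y j).X) := fun i =>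
    ⟨galoisMeasure Γ (x i), isProbabilityMeasure_uniformOn ((hOfin i).image _)
      ⟨_, _, mem_orbit_self _, rfl⟩⟩
  have hν : Tendsto ν atTop (𝓝 (ProbabilityMeasure.pi μ)) := by
    refine tendsto_of_pi_sets μ ν fun s hs hs0 => ?_
    set φ : ∀ j, (Y j).P → ℝ := fun j p => (s j).indicator (fun _ => (1 : ℝ)) ((Y j).pt p) with hφ
    have hφ01 : ∀ j p, 0 ≤ φ j p ∧ φ j p ≤ 1 := by
      intro j p
      simp only [hφ, Set.indicator]
      split_ifs <;> norm_num
    set mu : ι → ℝ := fun j => ((μ j (s j) : NNReal) : ℝ) with hmu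
    have hmu01 : ∀ j, 0 ≤ mu j ∧ mu j ≤ 1 := fun j =>
      ⟨NNReal.coe_nonneg _, by exact_mod_cast (μ j).apply_le_one (s j)⟩
    -- the worst points
    have hav : ∀ (j : ι) (p : (Y j).P) (H : Subgroup G) (T : Finset (Y j).P),
        (T : Set (Y j).P) = orbit H p →
        av T (φ j) = (uniformOn ((Y j).pt '' orbit H p)).real (s j) := by
      intro j p H T hT
      rw [← hT, ← integral_indicator_one (hs j), av]
      exact (integral_uniformOn_image (hY j).pt_inj T ((s j).indicator 1)).symm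
    set dev : ℕ → ∀ j, (∀ j, (Y j).P) → ℝ := fun i j y =>
      |(uniformOn ((Y j).pt '' orbit (Δ i j) (y j))).real (s j) - mu j| with hdev
    have hworst : ∀ i j, ∃ y ∈ O i, ∀ z ∈ O i, dev i j z ≤ dev i j y := fun i j =>
      Finset.exists_max_image (O i) (dev i j) ⟨x i, hxO i⟩
    choose w hw hwmax using hworst
    have hdev0 : ∀ j, Tendsto (fun i => dev i j (w i j)) atTop (𝓝 0) := by
      intro j
      let ρ : ℕ → ProbabilityMeasure (Y j).X := fun i =>
        ⟨uniformOn ((Y j).pt '' orbit (Δ i j) (w i j j)), isProbabilityMeasure_uniformOn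
          ((hsub _ _ _).image _) ⟨_, _, mem_orbit_self _, rfl⟩⟩
      have h1 : Tendsto ρ atTop (𝓝 (μ j)) := by
        rw [ProbabilityMeasure.tendsto_iff_forall_integral_tendsto]
        exact one j (fun i => w i j) (fun i => hw i j)
      have h2 := ProbabilityMeasure.tendsto_measure_of_null_frontier_of_tendsto h1 (hs0 j)
      have h3 : Tendsto (fun i => ((ρ i (s j) : NNReal) : ℝ)) atTop (𝓝 (mu j)) :=
        (NNReal.tendsto_coe.2 h2)
      have h4 := (h3.sub_const (mu j)).abs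
      rw [sub_self, abs_zero] at h4
      exact h4
    -- the product formula up to the deviations
    have key : ∀ i (T : Finset ι), |av (O i) (fun y => ∏ k ∈ T, φ k (y k)) - ∏ k ∈ T, mu k| ≤
        ∑ k ∈ T, dev i k (w i k) := by
      intro i T
      refine Finset.induction_on_max_value (r i) T ?_ ?_
      · have hOpos : (0 : ℝ) < (O i).card := by exact_mod_cast Finset.card_pos.2 ⟨x i, hxO i⟩
        simp [av, hOpos.ne']
      · intro j T hj hmax ih
        have h1 : ∀ y ∈ O i, |∏ k ∈ T, φ k (y k)| ≤ 1 := by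
          intro y _
          rw [Finset.abs_prod]
          refine Finset.prod_le_one (fun k _ => abs_nonneg _) fun k _ => ?_
          rw [abs_of_nonneg (hφ01 k _).1]
          exact (hφ01 k _).2
        have h2 : ∀ y ∈ O i, ∀ d ∈ Δ i j, ∏ k ∈ T, φ k ((d • y) k) = ∏ k ∈ T, φ k (y k) := by
          intro y hy d hd
          refine Finset.prod_congr rfl fun k hk => ?_
          have hkj : r i k < r i j := by
            refine lt_of_le_of_ne (hmax k hk) fun he => ?_
            exact hj (hr i he ▸ hk)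
          obtain ⟨g, -, hg⟩ := hOj i y hy k
          rw [Pi.smul_apply, hg, hΔfix i j k hkj d hd g]
        obtain ⟨y, hy, hyT⟩ := Pool.Agent.U980.EQ.exists_far (P := fun j => (Y j).P) (hΔn i j)
          ((hΔle i j).trans inf_le_left) (fun j p => (hY j).finite_orbit p) (hOc i) (j := j)
          (fun y => ∏ k ∈ T, φ k (y k)) h1 h2 (φ j) (mu j)
        have h3 := hyT (hsub (Δ i j) j (y j)).toFinset (Set.Finite.coe_toFinset _)
        rw [hav j (y j) (Δ i j) _ (Set.Finite.coe_toFinset _)] at h3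
        have h4 : av (O i) (fun y => ∏ k ∈ insert j T, φ k (y k)) =
            av (O i) (fun z => (∏ k ∈ T, φ k (z k)) * φ j (z j)) := by
          congr 1
          funext z
          rw [Finset.prod_insert hj, mul_comm]
        rw [h4, Finset.prod_insert hj, Finset.sum_insert hj]
        set E := av (O i) (fun y => ∏ k ∈ T, φ k (y k)) with hE'
        calc |av (O i) (fun z => (∏ k ∈ T, φ k (z k)) * φ j (z j)) - mu j * ∏ k ∈ T, mu k|
            = |(av (O i) (fun z => (∏ k ∈ T, φ k (z k)) * φ j (z j)) - mu j * E) +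
                mu j * (E - ∏ k ∈ T, mu k)| := by congr 1; ring
          _ ≤ |av (O i) (fun z => (∏ k ∈ T, φ k (z k)) * φ j (z j)) - mu j * E| +
                |mu j * (E - ∏ k ∈ T, mu k)| := abs_add_le _ _
          _ ≤ dev i j (w i j) + ∑ k ∈ T, dev i k (w i k) := by
              refine add_le_add (h3.trans (hwmax i j y hy)) ?_
              rw [abs_mul, abs_of_nonneg (hmu01 j).1]
              calc mu j * |E - ∏ k ∈ T, mu k| ≤ 1 * |E - ∏ k ∈ T, mu k| :=
                    mul_le_mul_of_nonneg_right (hmu01 j).2 (abs_nonneg _)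
                _ ≤ _ := by rw [one_mul]; exact ih
    have hsum0 : Tendsto (fun i => ∑ k, dev i k (w i k)) atTop (𝓝 0) := by
      have := tendsto_finsetSum Finset.univ fun k _ => hdev0 k
      simpa using this
    have hav1 : Tendsto (fun i => av (O i) (fun y => ∏ k, φ k (y k))) atTop (𝓝 (∏ k, mu k)) := by
      rw [tendsto_iff_norm_sub_tendsto_zero]
      exact squeeze_zero (fun i => norm_nonneg _) (fun i => key i Finset.univ) hsum0
    rw [← NNReal.tendsto_coe]
    push_cast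
    refine hav1.congr fun i => ?_
    have h5 : ((ν i (Set.univ.pi s) : NNReal) : ℝ) =
        (galoisMeasure Γ (x i)).real (Set.univ.pi s) := rfl
    rw [h5, ← integral_indicator_one (MeasurableSet.univ_pi hs), galoisMeasure, ← hOc i,
      integral_uniformOn_image hFinj, av]
    congr 1
    refine Finset.sum_congr rfl fun y _ => ?_
    simp only [hφ, Set.indicator]
    by_cases hall : ∀ j, (Y j).pt (y j) ∈ s j
    · rw [if_pos (by simpa using hall)]
      simp [hall]
    · rw [if_neg (by simpa using hall)]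
      push Not at hall
      obtain ⟨j, hj⟩ := hall
      exact Finset.prod_eq_zero (Finset.mem_univ j) (if_neg hj)
  exact (ProbabilityMeasure.tendsto_iff_forall_integral_tendsto.1 hν) f

end Pool.Agent.U980.EQ
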